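import Pool.Agent.H14.ES.Stm

set_option autoImplicit false

/-!
# Crew ES, part ERC: invariant functions are constant
-/

open MeasureTheory Set
open scoped ENNReal

namespace H80.ES

open H14.ES

theorem t_ERC (hERG : S_ERG) : S_ERC := by
  intro I _ p hp Y _ _ f hf hinv
  have : Nonempty Y := ⟨f (fun _ => true)⟩
  have key := Filter.exists_eventuallyEq_const_of_forall_separating (l := ae (mu I)) (f := f)
    MeasurableSet (fun U hU => by
      have h1 : sh p ⁻¹' (f ⁻¹' U) =ᵐ[mu I] f ⁻¹' U := by
        rw [Filter.eventuallyEq_set]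
        filter_upwards [hinv] with ω hω
        rw [mem_preimage, mem_preimage, mem_preimage, hω]
      rcases hERG I p hp (f ⁻¹' U) (hf hU) h1 with h2 | h2
      · right
        have h3 : ∀ᵐ ω ∂(mu I), ω ∉ f ⁻¹' U := measure_eq_zero_iff_ae_notMem.1 h2
        exact h3
      · left
        have h3 : ∀ᵐ ω ∂(mu I), ω ∈ f ⁻¹' U := by
          rw [← prob_compl_eq_zero_iff (hf hU)] at h2
          have h4 : ∀ᵐ ω ∂(mu I), ω ∉ (f ⁻¹' U)ᶜ := measure_eq_zero_iff_ae_notMem.1 h2
          filter_upwards [h4] with ω hω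
          exact not_not.1 hω
        exact h3)
  obtain ⟨y, hy⟩ := key
  exact ⟨y, hy⟩

end H80.ES
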